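import Mathlib

/-!
# An exotic topological quandle structure on the 2-sphere

On the unit sphere `S² ⊂ ℝ³` let `x * y` be the image of `x` under the rotation about the third
coordinate axis by the angle `x₂ - y₂` (difference of heights).  This is a continuous quandle
operation which is isomorphic neither to the trivial quandle nor to any spherical quandle.
-/

namespace Pool.Agent.Results.MP_6238b5_al.HeightTwist

/-- The quandle axioms for a binary operation. -/
structure IsQuandle {X : Type*} (op : X → X → X) : Prop where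
  idem : ∀ x, op x x = x
  bij : ∀ y, Function.Bijective (fun x => op x y)
  distrib : ∀ x y z, op (op x y) z = op (op x z) (op y z)

/-- A topological quandle structure on a topological space: a continuous quandle operation. -/
def IsTopologicalQuandle {X : Type*} [TopologicalSpace X] (op : X → X → X) : Prop :=
  IsQuandle op ∧ Continuous (fun p : X × X => op p.1 p.2)

/-- Two operations on a topological space are isomorphic if some self-homeomorphism
intertwines them. -/
def Isomorphic {X : Type*} [TopologicalSpace X] (op op' : X → X → X) : Prop :=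
  ∃ h : X ≃ₜ X, ∀ x y, h (op x y) = op' (h x) (h y)

/-- Euclidean three-space. -/
abbrev E3 : Type := EuclideanSpace ℝ (Fin 3)

/-- The unit sphere in Euclidean three-space. -/
abbrev S2 : Type := Metric.sphere (0 : E3) 1

/-- The vector product in `ℝ³`. -/
noncomputable def cross (v u : E3) : E3 :=
  !₂[v 1 * u 2 - v 2 * u 1, v 2 * u 0 - v 0 * u 2, v 0 * u 1 - v 1 * u 0]

/-- The image of `u` under the rotation by the angle `ψ` about the axis spanned by the unit
vector `v`, in the positive sense with respect to `v` (Rodrigues' formula). -/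
noncomputable def rotate (ψ : ℝ) (v u : E3) : E3 :=
  Real.cos ψ • u + Real.sin ψ • cross v u + ((1 - Real.cos ψ) * inner ℝ v u) • v

theorem mem_iff (x : E3) : x ∈ Metric.sphere (0 : E3) 1 ↔ x 0 ^ 2 + x 1 ^ 2 + x 2 ^ 2 = 1 := by
  rw [mem_sphere_zero_iff_norm, EuclideanSpace.norm_eq, Fin.sum_univ_three]
  simp only [Real.norm_eq_abs, sq_abs]
  constructor
  · intro h
    have := congrArg (fun t => t ^ 2) h
    simp only [one_pow] at this
    rwa [Real.sq_sqrt (by positivity)] at this
  · intro h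
    rw [h, Real.sqrt_one]

theorem inner_eq (x y : E3) : inner ℝ x y = x 0 * y 0 + x 1 * y 1 + x 2 * y 2 := by
  rw [PiLp.inner_apply, Fin.sum_univ_three]
  simp only [RCLike.inner_apply, conj_trivial]
  ring

theorem rotate_apply (ψ : ℝ) (v u : E3) :
    rotate ψ v u 0 = Real.cos ψ * u 0 + Real.sin ψ * (v 1 * u 2 - v 2 * u 1) +
        (1 - Real.cos ψ) * (v 0 * u 0 + v 1 * u 1 + v 2 * u 2) * v 0 ∧
    rotate ψ v u 1 = Real.cos ψ * u 1 + Real.sin ψ * (v 2 * u 0 - v 0 * u 2) +
        (1 - Real.cos ψ) * (v 0 * u 0 + v 1 * u 1 + v 2 * u 2) * v 1 ∧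
    rotate ψ v u 2 = Real.cos ψ * u 2 + Real.sin ψ * (v 0 * u 1 - v 1 * u 0) +
        (1 - Real.cos ψ) * (v 0 * u 0 + v 1 * u 1 + v 2 * u 2) * v 2 := by
  unfold rotate cross
  rw [inner_eq]
  refine ⟨?_, ?_, ?_⟩ <;> simp

theorem rotate_mem (ψ : ℝ) (v u : S2) : rotate ψ v u ∈ Metric.sphere (0 : E3) 1 := by
  rw [mem_iff]
  obtain ⟨h0, h1, h2⟩ := rotate_apply ψ v u
  rw [h0, h1, h2]
  have hv := (mem_iff v.1).1 v.2
  have hu := (mem_iff u.1).1 u.2
  have hc := Real.sin_sq_add_cos_sq ψ
  generalize Real.cos ψ = c at *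
  generalize Real.sin ψ = s at *
  generalize v.1 0 = v0 at *
  generalize v.1 1 = v1 at *
  generalize v.1 2 = v2 at *
  generalize u.1 0 = u0 at *
  generalize u.1 1 = u1 at *
  generalize u.1 2 = u2 at *
  linear_combination (c ^ 2 + s ^ 2 * (v0 ^ 2 + v1 ^ 2 + v2 ^ 2)) * hu +
    (s ^ 2 + (1 - c) ^ 2 * (v0 * u0 + v1 * u1 + v2 * u2) ^ 2) * hv +
    (1 - (v0 * u0 + v1 * u1 + v2 * u2) ^ 2) * hc

/-- The spherical quandle operation `u *_ψ v`: rotate `u` by the angle `ψ` about `v`. -/
noncomputable def sphericalOp (ψ : ℝ) (u v : S2) : S2 := ⟨rotate ψ v u, rotate_mem ψ v u⟩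

theorem sum_sq_zero (a b c : ℝ) (h : a ^ 2 + b ^ 2 + c ^ 2 = 0) : a = 0 ∧ b = 0 ∧ c = 0 := by
  have ha := sq_nonneg a
  have hb := sq_nonneg b
  have hc := sq_nonneg c
  refine ⟨?_, ?_, ?_⟩
  · exact pow_eq_zero_iff (two_ne_zero) |>.mp (by linarith)
  · exact pow_eq_zero_iff (two_ne_zero) |>.mp (by linarith)
  · exact pow_eq_zero_iff (two_ne_zero) |>.mp (by linarith)

/-- In a spherical quandle with `0 < ψ < 2π`, the right translation by `v` fixes only `v` and
`-v`. -/
theorem fixed_of_spherical (ψ : ℝ) (h0 : 0 < ψ) (h1 : ψ < 2 * Real.pi) (u v : S2)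
    (h : sphericalOp ψ u v = u) : (u : E3) = v ∨ (u : E3) = -v := by
  have hcos : Real.cos ψ < 1 := by
    rcases lt_or_eq_of_le (Real.cos_le_one ψ) with h' | h'
    · exact h'
    · exfalso
      rw [Real.cos_eq_one_iff] at h'
      obtain ⟨n, hn⟩ := h'
      have hpi := Real.pi_pos
      have hn0 : (0 : ℝ) < n := by
        by_contra hcon
        have : (n : ℝ) * (2 * Real.pi) ≤ 0 :=
          mul_nonpos_of_nonpos_of_nonneg (not_lt.mp hcon) (by positivity)
        linarith
      have hn1 : (n : ℝ) < 1 := by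
        by_contra hcon
        have : 1 * (2 * Real.pi) ≤ (n : ℝ) * (2 * Real.pi) :=
          mul_le_mul_of_nonneg_right (not_lt.mp hcon) (by positivity)
        linarith
      have a : (0 : ℤ) < n := by exact_mod_cast hn0
      have b : n < (1 : ℤ) := by exact_mod_cast hn1
      omega
  have hr : rotate ψ v u = u := congrArg Subtype.val h
  obtain ⟨e0, e1, e2⟩ := rotate_apply ψ v u
  rw [hr] at e0 e1 e2
  have hv := (mem_iff v.1).1 v.2
  have hu := (mem_iff u.1).1 u.2
  have hd : ((v.1 0 * u.1 0 + v.1 1 * u.1 1 + v.1 2 * u.1 2) ^ 2 - 1) = 0 := by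
    have hc : (1 - Real.cos ψ) ≠ 0 := by linarith
    apply mul_left_cancel₀ hc
    linear_combination (-u.1 0) * e0 - u.1 1 * e1 - u.1 2 * e2 + (1 - Real.cos ψ) * hu
  have hd' : (v.1 0 * u.1 0 + v.1 1 * u.1 1 + v.1 2 * u.1 2 - 1) *
      (v.1 0 * u.1 0 + v.1 1 * u.1 1 + v.1 2 * u.1 2 + 1) = 0 := by
    linear_combination hd
  rcases mul_eq_zero.mp hd' with hd1 | hd1
  · left
    obtain ⟨q0, q1, q2⟩ := sum_sq_zero (u.1 0 - v.1 0) (u.1 1 - v.1 1) (u.1 2 - v.1 2)
      (by linear_combination hu + hv - 2 * hd1)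
    ext i
    fin_cases i
    · exact sub_eq_zero.mp q0
    · exact sub_eq_zero.mp q1
    · exact sub_eq_zero.mp q2
  · right
    obtain ⟨q0, q1, q2⟩ := sum_sq_zero (u.1 0 + v.1 0) (u.1 1 + v.1 1) (u.1 2 + v.1 2)
      (by linear_combination hu + hv + 2 * hd1)
    ext i
    fin_cases i
    · exact eq_neg_of_add_eq_zero_left q0
    · exact eq_neg_of_add_eq_zero_left q1
    · exact eq_neg_of_add_eq_zero_left q2

/-! ### The exotic operation -/

/-- Rotation about the third coordinate axis by the angle `t`. -/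
noncomputable def rotZ (t : ℝ) (x : E3) : E3 :=
  !₂[Real.cos t * x 0 - Real.sin t * x 1, Real.sin t * x 0 + Real.cos t * x 1, x 2]

theorem rotZ_mem (t : ℝ) (x : S2) : rotZ t x ∈ Metric.sphere (0 : E3) 1 := by
  rw [mem_iff]
  have hx := (mem_iff x.1).1 x.2
  have hc := Real.sin_sq_add_cos_sq t
  simp only [rotZ, PiLp.toLp_apply, Matrix.cons_val_zero, Matrix.cons_val_one, Matrix.cons_val]
  linear_combination hx + (x.1 0 ^ 2 + x.1 1 ^ 2) * hc

/-- `x * y` is `x` rotated about the third axis by the difference of the heights of `x`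
and `y`. -/
noncomputable def twistOp (x y : S2) : S2 := ⟨rotZ (x.1 2 - y.1 2) x, rotZ_mem _ x⟩

theorem rotZ_add (s t : ℝ) (x : E3) : rotZ s (rotZ t x) = rotZ (s + t) x := by
  ext i
  fin_cases i <;>
    simp [rotZ, Real.cos_add, Real.sin_add] <;> ring

theorem rotZ_two (t : ℝ) (x : E3) : rotZ t x 2 = x 2 := by simp [rotZ]

theorem rotZ_zero (x : E3) : rotZ 0 x = x := by
  ext i
  fin_cases i <;> simp [rotZ]

theorem twistOp_val (x y : S2) : (twistOp x y : E3) = rotZ (x.1 2 - y.1 2) x := rfl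

theorem twistOp_two (x y : S2) : (twistOp x y).1 2 = x.1 2 := rotZ_two _ _

theorem isQuandle_twistOp : IsQuandle twistOp where
  idem x := by
    apply Subtype.ext
    rw [twistOp_val, sub_self, rotZ_zero]
  bij y := by
    refine ⟨fun a b hab => ?_, fun b => ?_⟩
    · have h1 : (twistOp a y : E3) = twistOp b y := congrArg Subtype.val hab
      have h2 : a.1 2 = b.1 2 := by
        rw [← twistOp_two a y, ← twistOp_two b y, h1]
      rw [twistOp_val, twistOp_val, h2] at h1
      have h3 := congrArg (rotZ (-(b.1 2 - y.1 2))) h1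
      rw [rotZ_add, rotZ_add, neg_add_cancel, rotZ_zero, rotZ_zero] at h3
      exact Subtype.ext h3
    · refine ⟨⟨rotZ (-(b.1 2 - y.1 2)) b, rotZ_mem _ b⟩, ?_⟩
      apply Subtype.ext
      rw [twistOp_val]
      simp only [rotZ_two]
      rw [rotZ_add, add_neg_cancel, rotZ_zero]
  distrib x y z := by
    apply Subtype.ext
    rw [twistOp_val (twistOp x y) z, twistOp_val (twistOp x z) (twistOp y z), twistOp_two,
      twistOp_two, twistOp_two, twistOp_val x y, twistOp_val x z, rotZ_add, rotZ_add, add_comm]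

theorem continuous_rotZ : Continuous (fun p : ℝ × E3 => rotZ p.1 p.2) := by
  have hp : ∀ i : Fin 3, Continuous (fun p : ℝ × E3 => p.2 i) := fun i =>
    (PiLp.continuous_apply 2 _ i).comp continuous_snd
  unfold rotZ
  refine (PiLp.continuous_toLp 2 (fun _ : Fin 3 => ℝ)).comp ?_
  apply continuous_pi
  intro i
  have hc : Continuous (fun p : ℝ × E3 => Real.cos p.1) := Real.continuous_cos.comp continuous_fst
  have hs : Continuous (fun p : ℝ × E3 => Real.sin p.1) := Real.continuous_sin.comp continuous_fst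
  fin_cases i
  · exact (hc.mul (hp 0)).sub (hs.mul (hp 1))
  · exact (hs.mul (hp 0)).add (hc.mul (hp 1))
  · exact hp 2

theorem continuous_twistOp : Continuous (fun p : S2 × S2 => twistOp p.1 p.2) := by
  apply Continuous.subtype_mk
  have h1 : Continuous (fun p : S2 × S2 => ((p.1.1 2 - p.2.1 2, (p.1 : E3)) : ℝ × E3)) := by
    have hz : Continuous (fun x : S2 => x.1 2) :=
      (PiLp.continuous_apply 2 _ 2).comp continuous_subtype_val
    exact ((hz.comp continuous_fst).sub (hz.comp continuous_snd)).prodMk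
      (continuous_subtype_val.comp continuous_fst)
  exact continuous_rotZ.comp h1

/-- The point `(a, b, c)` of the sphere. -/
noncomputable def pt (a b c : ℝ) (h : a ^ 2 + b ^ 2 + c ^ 2 = 1) : S2 :=
  ⟨!₂[a, b, c], by rw [mem_iff]; simpa using h⟩

theorem not_trivial : ¬ Isomorphic twistOp (fun u _ => u) := by
  rintro ⟨h, hh⟩
  have h1 : twistOp (pt 1 0 0 (by norm_num)) (pt 0 0 1 (by norm_num)) = pt 1 0 0 (by norm_num) :=
    h.injective (hh _ _)
  have h2 := congrArg (fun x : S2 => x.1 1) h1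
  have h3 : Real.sin (-1) = 0 := by
    simpa [twistOp_val, rotZ, pt] using h2
  rw [Real.sin_neg, neg_eq_zero] at h3
  have h4 : 0 < Real.sin 1 := Real.sin_pos_of_pos_of_lt_pi one_pos (by linarith [Real.pi_gt_three])
  linarith

theorem not_spherical (ψ : ℝ) (h0 : 0 < ψ) (h1 : ψ < 2 * Real.pi) :
    ¬ Isomorphic twistOp (sphericalOp ψ) := by
  rintro ⟨h, hh⟩
  -- three different fixed points of the translation by `e₁`
  have key : ∀ (a b : ℝ) (hab : a ^ 2 + b ^ 2 + 0 ^ 2 = 1),
      (h (pt a b 0 hab) : E3) = h (pt 1 0 0 (by norm_num)) ∨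
      (h (pt a b 0 hab) : E3) = -h (pt 1 0 0 (by norm_num)) := by
    intro a b hab
    apply fixed_of_spherical ψ h0 h1
    rw [← hh]
    congr 1
    apply Subtype.ext
    rw [twistOp_val]
    have : (pt a b 0 hab).1 2 - (pt 1 0 0 (by norm_num)).1 2 = 0 := by simp [pt]
    rw [this, rotZ_zero]
  have hinj : ∀ (a b : ℝ) (hab : a ^ 2 + b ^ 2 + 0 ^ 2 = 1) (c d : ℝ)
      (hcd : c ^ 2 + d ^ 2 + 0 ^ 2 = 1),
      (h (pt a b 0 hab) : E3) = h (pt c d 0 hcd) → b = d := by
    intro a b hab c d hcd he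
    have h2 : pt a b 0 hab = pt c d 0 hcd := h.injective (Subtype.ext he)
    simpa [pt] using congrArg (fun x : S2 => x.1 1) h2
  have k1 := key 0 1 (by norm_num)
  have k2 := key 0 (-1) (by norm_num)
  rcases k1 with k1 | k1
  · have := hinj _ _ _ _ _ _ k1
    norm_num at this
  · rcases k2 with k2 | k2
    · have := hinj _ _ _ _ _ _ k2
      norm_num at this
    · have := hinj _ _ _ _ _ _ (k1.trans k2.symm)
      norm_num at this

/-- There is a continuous quandle operation on the 2-sphere that is isomorphic neither to the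
trivial quandle nor to any spherical quandle. -/
theorem result : ∃ op : S2 → S2 → S2, IsTopologicalQuandle op ∧
    ¬ Isomorphic op (fun u _ => u) ∧
    ∀ ψ : ℝ, 0 < ψ → ψ < 2 * Real.pi → ¬ Isomorphic op (sphericalOp ψ) :=
  ⟨twistOp, ⟨isQuandle_twistOp, continuous_twistOp⟩, not_trivial, not_spherical⟩

end Pool.Agent.Results.MP_6238b5_al.HeightTwist
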